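import Mathlib
import Pool.Agent.R654.SharpDefs

open Function

namespace Pool.Agent.R872.Sharp
open Pool.Agent.R654.SharpCore

/-! ### The affine group of the prime field as a permutation group of `Fin p` -/

section Theta
variable (p : ℕ) [Fact p.Prime]

noncomputable def e : Fin p ≃ ZMod p := (ZMod.finEquiv p).toEquiv

noncomputable def Theta : Subgroup (Equiv.Perm (Fin p)) where
  carrier := {σ | ∃ a b : ZMod p, a ≠ 0 ∧ ∀ x, e p (σ x) = a * e p x + b}
  one_mem' := ⟨1, 0, one_ne_zero, by simp⟩
  mul_mem' := by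
    rintro σ τ ⟨a, b, ha, h⟩ ⟨a', b', ha', h'⟩
    exact ⟨a * a', a * b' + b, mul_ne_zero ha ha', fun x => by
      rw [Equiv.Perm.mul_apply, h, h']; ring⟩
  inv_mem' := by
    rintro σ ⟨a, b, ha, h⟩
    refine ⟨a⁻¹, - a⁻¹ * b, inv_ne_zero ha, fun x => ?_⟩
    have := h (σ⁻¹ x)
    have h1 : σ (σ⁻¹ x) = x := by simp
    rw [h1] at this
    rw [this]; field_simp; ring

variable {p}

lemma eq_one_of_two {σ : Equiv.Perm (Fin p)} (hσ : σ ∈ Theta p) {m n : Fin p} (hmn : m ≠ n)
    (hm : σ m = m) (hn : σ n = n) : σ = 1 := by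
  obtain ⟨a, b, ha, h⟩ := hσ
  have h1 := h m
  have h2 := h n
  rw [hm] at h1
  rw [hn] at h2
  have hne : e p m - e p n ≠ 0 := sub_ne_zero.mpr (fun h => hmn ((e p).injective h))
  have ha1 : a = 1 := by
    have : (a - 1) * (e p m - e p n) = 0 := by linear_combination -h1 + h2
    rcases mul_eq_zero.mp this with h | h
    · exact sub_eq_zero.mp h
    · exact absurd h hne
  subst ha1
  have hb : b = 0 := by linear_combination -h1
  subst hb
  ext x
  have := h x
  simp only [one_mul, add_zero] at this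
  rw [(e p).injective this]; rfl

lemma card_theta : p * (p - 1) ≤ Nat.card (Theta p) := by
  let f : (ZMod p)ˣ × ZMod p → Theta p := fun q =>
    ⟨(e p).trans (((Equiv.mulLeft₀ (q.1 : ZMod p) q.1.ne_zero).trans (Equiv.addRight q.2)).trans
      (e p).symm), (q.1 : ZMod p), q.2, q.1.ne_zero, fun x => by simp⟩
  have hf : Injective f := by
    rintro ⟨a, b⟩ ⟨a', b'⟩ h
    have h1 : ∀ x : ZMod p, (a : ZMod p) * x + b = a' * x + b' := by
      intro x
      have h2 := congrArg (fun σ : Theta p => e p ((σ : Equiv.Perm (Fin p)) ((e p).symm x))) h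
      simpa [f] using h2
    have hb : b = b' := by simpa using h1 0
    subst hb
    have ha : (a : ZMod p) = a' := by simpa using h1 1
    rw [Units.ext ha]
  have h := Nat.card_le_card_of_injective f hf
  rwa [Nat.card_prod, Nat.card_eq_fintype_card, ZMod.card_units_eq_totient,
    Nat.totient_prime Fact.out, Nat.card_zmod, mul_comm] at h

end Theta

/-! ### Equivariant bijections of free actions -/

lemma free_bij {H Z : Type} [Group H] [MulAction H Z] (hZ : ∀ (h : H) (x : Z), h • x = x → h = 1) :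
    Bijective (fun q : MulAction.orbitRel.Quotient H Z × H => q.2 • q.1.out) := by
  have hout : ∀ ω : MulAction.orbitRel.Quotient H Z, Quotient.mk'' ω.out = ω :=
    fun ω => Quotient.out_eq' ω
  constructor
  · rintro ⟨ω, h⟩ ⟨ω', h'⟩ heq
    simp only at heq
    have h1 : ω = ω' := by
      rw [← hout ω, ← hout ω']
      refine Quotient.sound' ?_
      rw [MulAction.orbitRel_apply]
      exact ⟨h⁻¹ * h', by simp only [mul_smul, ← heq, inv_smul_smul]⟩
    subst h1
    have h2 : h⁻¹ * h' = 1 := hZ _ ω.out (by rw [mul_smul, ← heq, inv_smul_smul])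
    rw [inv_mul_eq_one.mp h2]
  · intro x
    have h1 : (Quotient.mk'' x : MulAction.orbitRel.Quotient H Z).out ∈ MulAction.orbit H x := by
      have := Quotient.exact' (hout (Quotient.mk'' x : MulAction.orbitRel.Quotient H Z))
      rwa [MulAction.orbitRel_apply] at this
    obtain ⟨h, hh⟩ := h1
    refine ⟨(Quotient.mk'' x, h⁻¹), ?_⟩
    simp only at hh ⊢
    rw [← hh, inv_smul_smul]

lemma free_dvd {H Z : Type} [Group H] [MulAction H Z] (hZ : ∀ (h : H) (x : Z), h • x = x → h = 1) :
    Nat.card H ∣ Nat.card Z := by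
  rw [← Nat.card_congr (Equiv.ofBijective _ (free_bij hZ)), Nat.card_prod]
  exact dvd_mul_left _ _

lemma free_equiv {H X Y : Type} [Group H] [Finite H] [MulAction H X] [MulAction H Y]
    [Finite X] [Finite Y] (hX : ∀ (h : H) (x : X), h • x = x → h = 1)
    (hY : ∀ (h : H) (y : Y), h • y = y → h = 1) (hc : Nat.card X = Nat.card Y) :
    ∃ e : X ≃ Y, ∀ (h : H) (x : X), e (h • x) = h • e x := by
  let EX := Equiv.ofBijective _ (free_bij hX)
  let EY := Equiv.ofBijective _ (free_bij hY)
  have h1 : Nat.card (MulAction.orbitRel.Quotient H X) = Nat.card (MulAction.orbitRel.Quotient H Y) := by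
    have h2 := Nat.card_congr EX
    have h3 := Nat.card_congr EY
    rw [Nat.card_prod] at h2 h3
    have : 0 < Nat.card H := Nat.card_pos
    exact Nat.eq_of_mul_eq_mul_right this (by rw [h2, h3, hc])
  let e0 := Classical.choice (Finite.card_eq.mp h1)
  refine ⟨(EX.symm.trans (Equiv.prodCongr e0 (Equiv.refl H))).trans EY, fun h x => ?_⟩
  obtain ⟨⟨ω, k⟩, rfl⟩ := EX.surjective x
  have h4 : h • EX (ω, k) = EX (ω, h * k) := by
    simp only [EX, Equiv.ofBijective_apply, mul_smul]
  rw [h4]
  simp only [Equiv.trans_apply, Equiv.symm_apply_apply, Equiv.prodCongr_apply, Prod.map,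
    Equiv.refl_apply]
  simp only [EY, Equiv.ofBijective_apply, mul_smul]

end Pool.Agent.R872.Sharp
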