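import Pool.Agent.R872.Sharp.Inst

open Function

namespace Pool.Agent.R872.Sharp
open Pool.Agent.R654.SharpCore

def KSharp (k : ℕ) (G : Type) [Group G] [MulAction G ℕ] : Prop :=
  ∀ (g : G) (a : Fin k ↪ ℕ), g • a = a → g = 1

def KHomog (k : ℕ) (G : Type) [Group G] [MulAction G ℕ] : Prop :=
  ∀ A B : Set ℕ, A.ncard = k → B.ncard = k → A.Finite → B.Finite → ∃ g : G, (fun x => g • x) '' A = B

/-- enumeration of a finite set of natural numbers with `k` elements -/
lemma exists_enum {k : ℕ} {A : Set ℕ} (hA : A.ncard = k) (hfin : A.Finite) :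
    ∃ a : Fin k → ℕ, Injective a ∧ Set.range a = A := by
  have h1 : Nat.card A = k := hA
  have : Finite A := hfin.to_subtype
  let f := Finite.equivFinOfCardEq h1
  refine ⟨fun i => (f.symm i : ℕ), fun i j h => f.symm.injective (Subtype.ext h), ?_⟩
  ext z
  constructor
  · rintro ⟨i, rfl⟩; exact (f.symm i).2
  · intro hz; exact ⟨f ⟨z, hz⟩, by simp⟩

/-- finitely many orbits on `k`-tuples -/
lemma finite_orbits {k : ℕ} (G : Type) [Group G] [MulAction G ℕ] (h : KHomog k G) :
    0 < Nat.card (MulAction.orbitRel.Quotient G (Fin k ↪ ℕ)) := by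
  let a0 : Fin k ↪ ℕ := ⟨fun i => i, Fin.val_injective⟩
  let f : Equiv.Perm (Fin k) → MulAction.orbitRel.Quotient G (Fin k ↪ ℕ) :=
    fun π => Quotient.mk'' (π.toEmbedding.trans a0)
  have hf : Surjective f := by
    intro ω
    induction ω using Quotient.inductionOn' with
    | h a =>
      have hc : ∀ b : Fin k ↪ ℕ, (Set.range b).ncard = k := by
        intro b
        rw [← Set.image_univ, Set.ncard_image_of_injective _ b.injective, Set.ncard_univ,
          Nat.card_fin]
      obtain ⟨g, hg⟩ := h (Set.range a) (Set.range a0) (hc a) (hc a0) (Set.finite_range _)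
        (Set.finite_range _)
      have h1 : ∀ i, ∃ j, a0 j = g • a i := by
        intro i
        have : g • a i ∈ (fun x => g • x) '' Set.range a := ⟨a i, ⟨i, rfl⟩, rfl⟩
        rw [hg] at this
        exact this
      choose r hr using h1
      have hrinj : Injective r := by
        intro i j hij
        have h2 : g • a i = g • a j := by rw [← hr, ← hr, hij]
        exact a.injective (MulAction.injective g h2)
      refine ⟨Equiv.ofBijective r (Finite.injective_iff_bijective.mp hrinj), ?_⟩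
      refine Quotient.sound' ?_
      rw [MulAction.orbitRel_apply]
      refine ⟨g, ?_⟩
      ext i
      simp only [Function.Embedding.trans_apply, Equiv.coe_toEmbedding, Equiv.ofBijective_apply]
      rw [hr i]
      rfl
  have : Finite (MulAction.orbitRel.Quotient G (Fin k ↪ ℕ)) := Finite.of_surjective f hf
  have : Nonempty (MulAction.orbitRel.Quotient G (Fin k ↪ ℕ)) := ⟨f 1⟩
  exact Nat.card_pos

theorem main (p : ℕ) [Fact p.Prime]
    (hcore : ∃ G : Subgroup (Equiv.Perm ℕ),
      (∀ g ∈ G, (Sp p).P {q | q.2 = g q.1}) ∧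
      (∀ a b : Fin p → ℕ, Injective a → Injective b → (Sp p).P (tup a b) →
        ∃ g ∈ G, ∃ σ : Equiv.Perm (Fin p), ∀ m, g (a m) = b (σ m)) ∧
      (∀ a : Fin p → ℕ, Injective a → ∃ (ρ : Equiv.Perm (Fin p)) (c : Fin p → ℕ),
        Injective c ∧ (Sp p).P (tup (a ∘ ρ) c) ∧
        ∀ σ : Equiv.Perm (Fin p), σ ∈ (Sp p).T c ↔ ∃ g ∈ G, ∀ m, g (c m) = c (σ m)) ∧
      (∀ g ∈ G, ∀ a : Fin p → ℕ, Injective a → (∀ m, g (a m) = a m) → g = 1)) :
    ∃ (G : Type) (_ : Group G) (_ : MulAction G ℕ), KSharp p G ∧ KHomog p G ∧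
      Nat.card (MulAction.orbitRel.Quotient G (Fin p ↪ ℕ)) * (p * (p - 1)) ≤ p.factorial := by
  obtain ⟨G, -, h2, h3, h4⟩ := hcore
  have hhom : KHomog p G := by
    intro A B hA hB hA' hB'
    obtain ⟨a, ha, rfl⟩ := exists_enum hA hA'
    obtain ⟨b, hb, rfl⟩ := exists_enum hB hB'
    obtain ⟨g, hg, σ, hσ⟩ := h2 a b ha hb trivial
    refine ⟨⟨g, hg⟩, ?_⟩
    ext z
    constructor
    · rintro ⟨_, ⟨m, rfl⟩, rfl⟩
      exact ⟨σ m, (hσ m).symm⟩
    · rintro ⟨m, rfl⟩
      refine ⟨a (σ⁻¹ m), ⟨_, rfl⟩, ?_⟩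
      have := hσ (σ⁻¹ m)
      have h5 : σ (σ⁻¹ m) = m := by simp
      rw [h5] at this
      exact this
  refine ⟨G, inferInstance, inferInstance, ?_, hhom, ?_⟩
  · intro g a hga
    have h5 : ∀ m, (g : Equiv.Perm ℕ) (a m) = a m := by
      intro m
      exact congrArg (fun f : Fin p ↪ ℕ => f m) hga
    exact Subtype.ext (h4 g g.2 a a.injective h5)
  · obtain ⟨-, c, hc, -, hcT⟩ := h3 (fun i => i) Fin.val_injective
    let Q := MulAction.orbitRel.Quotient G (Fin p ↪ ℕ)
    let cE : Fin p ↪ ℕ := ⟨c, hc⟩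
    let f : Equiv.Perm (Fin p) → Q := fun π => Quotient.mk'' (π.toEmbedding.trans cE)
    have hf : Surjective f := by
      intro ω
      induction ω using Quotient.inductionOn' with
      | h a =>
        obtain ⟨g, hg, σ, hσ⟩ := h2 a c a.injective hc trivial
        refine ⟨σ, ?_⟩
        refine Quotient.sound' ?_
        rw [MulAction.orbitRel_apply]
        refine ⟨⟨g, hg⟩, ?_⟩
        ext i
        exact hσ i
    have hfθ : ∀ θ ∈ Theta p, ∀ π, f (θ * π) = f π := by
      intro θ hθ π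
      obtain ⟨g, hg, hgc⟩ := (hcT θ).mp hθ
      refine Quotient.sound' ?_
      rw [MulAction.orbitRel_apply]
      refine ⟨⟨g, hg⟩, ?_⟩
      ext i
      exact hgc (π i)
    choose s hs using hf
    let F : Q × Theta p → Equiv.Perm (Fin p) := fun q => q.2 * s q.1
    have hF : Injective F := by
      rintro ⟨ω, θ⟩ ⟨ω', θ'⟩ h
      have h5 : (θ : Equiv.Perm (Fin p)) * s ω = θ' * s ω' := h
      have h6 : ω = ω' := by
        have := congrArg f h5
        rwa [hfθ _ θ.2, hfθ _ θ'.2, hs, hs] at this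
      subst h6
      rw [Subtype.ext (mul_right_cancel h5)]
    have h7 := Nat.card_le_card_of_injective F hF
    rw [Nat.card_prod, Nat.card_eq_fintype_card (α := Equiv.Perm (Fin p)), Fintype.card_perm,
      Fintype.card_fin] at h7
    exact le_trans (Nat.mul_le_mul_left _ card_theta) h7

end Pool.Agent.R872.Sharp
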