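import Pool.Agent.R872.Sharp.Aff

open Function

namespace Pool.Agent.R872.Sharp
open Pool.Agent.R654.SharpCore

variable {p : ℕ} [Fact p.Prime]

/-- the setup: a pure set, all target groups are the affine group of the prime field -/
noncomputable def Sp (p : ℕ) [Fact p.Prime] : Setup ℕ p where
  P := fun _ => True
  mono := fun _ _ _ _ => trivial
  symm := fun _ _ => trivial
  comp := fun _ _ _ _ => trivial
  refl := trivial
  fin := fun _ _ => trivial
  T := fun _ => Theta p
  T_sub := fun _ _ _ _ => trivial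
  T_inv := fun _ _ _ _ _ => rfl

lemma Sp_T (c : Fin p → ℕ) : (Sp p).T c = Theta p := rfl

lemma exists_fresh (ι : Type) [Finite ι] (F : Finset ℕ) : ∃ y : ι → ℕ, Injective y ∧ ∀ i, y i ∉ F := by
  obtain ⟨n, ⟨f⟩⟩ := Finite.exists_equiv_fin ι
  refine ⟨fun i => F.sup id + 1 + f i, fun i j h => ?_, fun i hi => ?_⟩
  · have : (f i : ℕ) = f j := by simpa using h
    exact f.injective (Fin.ext this)
  · have := Finset.le_sup (f := id) hi
    simp only [id] at this
    omega

open Classical in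
lemma extend (A : PAct (Sp p)) (y : Theta p → ℕ) (hy : Injective y) (hyD : ∀ γ, y γ ∉ A.D) :
    ∃ B : PAct (Sp p), Ext (Sp p) A B (y 1) ∧ ∀ γ : Theta p, B.act γ (y 1) = y γ := by
  let act : Equiv.Perm (Fin p) → ℕ → ℕ := fun γ z =>
    if z ∈ A.D then A.act γ z else
      if h : γ ∈ Theta p ∧ ∃ δ, y δ = z then y (⟨γ, h.1⟩ * h.2.choose) else z
  have act_old : ∀ γ, ∀ z ∈ A.D, act γ z = A.act γ z := fun γ z hz => by simp only [act, if_pos hz]
  have act_new : ∀ (γ : Equiv.Perm (Fin p)) (hγ : γ ∈ Theta p) (δ : Theta p),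
      act γ (y δ) = y (⟨γ, hγ⟩ * δ) := by
    intro γ hγ δ
    have h : γ ∈ Theta p ∧ ∃ δ', y δ' = y δ := ⟨hγ, δ, rfl⟩
    simp only [act, if_neg (hyD δ), dif_pos h]
    rw [hy h.2.choose_spec]
  let D : Finset ℕ := A.D ∪ (Set.finite_range y).toFinset
  have hD : ∀ z, z ∈ D ↔ z ∈ A.D ∨ ∃ δ, y δ = z := by
    intro z
    simp [D]
  let B : PAct (Sp p) := {
    c := A.c
    inj := A.inj
    D := D
    act := act
    c_mem := fun m => (hD _).mpr (Or.inl (A.c_mem m))
    map_mem := by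
      intro γ hγ z hz
      rcases (hD z).mp hz with h | ⟨δ, rfl⟩
      · rw [act_old γ z h]; exact (hD _).mpr (Or.inl (A.map_mem γ hγ z h))
      · rw [act_new γ hγ]; exact (hD _).mpr (Or.inr ⟨_, rfl⟩)
    one := by
      intro z hz
      rcases (hD z).mp hz with h | ⟨δ, rfl⟩
      · rw [act_old 1 z h]; exact A.one z h
      · rw [act_new 1 (one_mem _)]
        exact congrArg y (one_mul δ)
    mul := by
      intro γ hγ δ hδ z hz
      rcases (hD z).mp hz with h | ⟨ε, rfl⟩
      · rw [act_old _ z h, act_old _ z h, act_old _ _ (A.map_mem δ hδ z h)]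
        exact A.mul γ hγ δ hδ z h
      · rw [act_new _ (mul_mem hγ hδ), act_new _ hδ, act_new _ hγ, ← mul_assoc]
        rfl
    on_c := by
      intro γ hγ m
      rw [act_old _ _ (A.c_mem m)]; exact A.on_c γ hγ m
    free := by
      intro γ hγ h1 z hz hfix
      rcases (hD z).mp hz with h | ⟨ε, rfl⟩
      · rw [act_old _ _ h] at hfix
        exact A.free γ hγ h1 z h hfix
      · rw [act_new _ hγ] at hfix
        have := hy hfix
        exact absurd (congrArg Subtype.val (mul_eq_right.mp this)) h1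
    pres := fun _ _ => trivial }
  have hact1 : ∀ γ : Theta p, B.act γ (y 1) = y γ := by
    intro γ
    have := act_new γ γ.2 1
    rw [mul_one] at this
    exact this
  refine ⟨B, ⟨rfl, fun γ _ z hz => act_old γ z hz, fun z => ?_, ?_, ?_⟩, hact1⟩
  · rw [show z ∈ B.D ↔ z ∈ D from Iff.rfl, hD]
    constructor
    · rintro (h | ⟨δ, rfl⟩)
      · exact Or.inl h
      · exact Or.inr ⟨δ, δ.2, (hact1 δ).symm⟩
    · rintro (h | ⟨γ, hγ, rfl⟩)
      · exact Or.inl h
      · exact Or.inr ⟨⟨γ, hγ⟩, (hact1 ⟨γ, hγ⟩).symm⟩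
  · intro γ hγ
    have := hact1 ⟨γ, hγ⟩
    simp only at this
    rw [this]
    exact hyD _
  · intro γ hγ δ hδ h
    have h1 := hact1 ⟨γ, hγ⟩
    have h2 := hact1 ⟨δ, hδ⟩
    simp only at h1 h2
    rw [h1, h2] at h
    exact congrArg Subtype.val (hy h)

/-- The fixed points of a nontrivial affine permutation: at most one index. -/
lemma fix_unique {γ : Equiv.Perm (Fin p)} (hγ : γ ∈ Theta p) (h1 : γ ≠ 1) {m n : Fin p}
    (hm : γ m = m) (hn : γ n = n) : m = n := by
  by_contra hmn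
  exact h1 (eq_one_of_two hγ hmn hm hn)

/-- the points fixed by a nontrivial element of `H` are in every `H`-invariant `p`-set of the
domain. -/
lemma fixed_mem (A : PAct (Sp p)) (H : Subgroup (Equiv.Perm (Fin p))) (hH : H ≤ Theta p)
    (b : Fin p → ℕ) (hb : Injective b) (hbD : ∀ m, b m ∈ A.D)
    (hinv : ∀ h ∈ H, ∀ m, A.act h (b m) ∈ Set.range b) (m : Fin p) (h : Equiv.Perm (Fin p))
    (hh : h ∈ H) (h1 : h ≠ 1) (hm : h m = m) : A.c m ∈ Set.range b := by
  classical
  by_contra hcon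
  -- the cyclic group generated by h acts freely on range b
  let Z := Subgroup.zpowers h
  have hZH : Z ≤ H := by
    rw [Subgroup.zpowers_le]; exact hh
  have hZfix : ∀ g ∈ Z, g m = m := by
    intro g hg
    obtain ⟨i, rfl⟩ := Subgroup.mem_zpowers_iff.mp hg
    exact Equiv.Perm.zpow_apply_eq_self_of_apply_eq_self hm i
  let X := {z : ℕ // z ∈ Set.range b}
  have hXD : ∀ z : X, (z : ℕ) ∈ A.D := by rintro ⟨_, ⟨m, rfl⟩⟩; exact hbD m
  let inst : MulAction Z X := {
    smul := fun g z => ⟨A.act g z.1, by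
      obtain ⟨z, ⟨n, rfl⟩⟩ := z
      exact hinv g (hZH g.2) n⟩
    one_smul := fun z => Subtype.ext (A.one z.1 (hXD z))
    mul_smul := fun g g' z => Subtype.ext (A.mul g (hH (hZH g.2)) g' (hH (hZH g'.2)) z.1 (hXD z)) }
  have hfree : ∀ (g : Z) (z : X), g • z = z → g = 1 := by
    intro g z hgz
    by_contra hg1
    have hg1' : (g : Equiv.Perm (Fin p)) ≠ 1 := fun h => hg1 (Subtype.ext h)
    have h2 : A.act g z.1 = z.1 := congrArg Subtype.val hgz
    have h3 := A.free g (hH (hZH g.2)) hg1' z.1 (hXD z) h2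
    obtain ⟨n, hn⟩ := h3
    rw [← hn, A.on_c _ (hH (hZH g.2))] at h2
    have h4 := A.inj h2
    have h5 := fix_unique (hH (hZH g.2)) hg1' h4 (hZfix g g.2)
    rw [h5] at hn
    exact hcon (hn ▸ z.2)
  -- Z also acts on the indices different from m, freely
  let Y := {n : Fin p // n ≠ m}
  let inst2 : MulAction Z Y := {
    smul := fun g n => ⟨(g : Equiv.Perm (Fin p)) n.1, fun h =>
      n.2 ((g : Equiv.Perm (Fin p)).injective (h.trans (hZfix g g.2).symm))⟩
    one_smul := fun n => rfl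
    mul_smul := fun g g' n => rfl }
  have hfree2 : ∀ (g : Z) (z : Y), g • z = z → g = 1 := by
    intro g z hgz
    by_contra hg1
    have hg1' : (g : Equiv.Perm (Fin p)) ≠ 1 := fun h => hg1 (Subtype.ext h)
    have h2 : (g : Equiv.Perm (Fin p)) z.1 = z.1 := congrArg Subtype.val hgz
    exact z.2 (fix_unique (hH (hZH g.2)) hg1' h2 (hZfix g g.2))
  have hX : Nat.card Z ∣ p := by
    have : Nat.card X = p := by
      rw [Nat.card_congr (Equiv.ofInjective b hb).symm]
      simp
    have h5 := free_dvd hfree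
    rwa [this] at h5
  have hY : Nat.card Z ∣ p - 1 := by
    have : Nat.card Y = p - 1 := by
      simp [Y, Nat.card_eq_fintype_card, Fintype.card_subtype_compl]
    have h5 := free_dvd hfree2
    rwa [this] at h5
  have hp : 1 < p := (Fact.out : p.Prime).one_lt
  have h2 : Nat.card Z ∣ 1 := by
    have := Nat.dvd_sub hX hY
    have h3 : p - (p - 1) = 1 := by omega
    rwa [h3] at this
  have h3 : Nat.card Z = 1 := Nat.dvd_one.mp h2
  have h4 : Nat.card Z = orderOf h := Nat.card_zpowers h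
  rw [h4, orderOf_eq_one_iff] at h3
  exact h1 h3

lemma twist (A : PAct (Sp p)) (H : Subgroup (Equiv.Perm (Fin p))) (hH : H ≤ Theta p)
    (b : Fin p → ℕ) (hb : Injective b) (hbD : ∀ m, b m ∈ A.D)
    (hinv : ∀ h ∈ H, ∀ m, A.act h (b m) ∈ Set.range b) :
    ∃ ρ : Equiv.Perm (Fin p), ∀ h ∈ H, ∀ m, A.act h (b (ρ m)) = b (ρ (h m)) := by
  classical
  let N : Set (Fin p) := {m | ∃ h ∈ H, h ≠ 1 ∧ h m = m}
  have hNinv : ∀ h ∈ H, ∀ m, m ∈ N → h m ∈ N := by
    rintro h hh m ⟨g, hg, hg1, hgm⟩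
    refine ⟨h * g * h⁻¹, mul_mem (mul_mem hh hg) (inv_mem hh), fun h2 => hg1 ?_, ?_⟩
    · have : g = h⁻¹ * (h * g * h⁻¹) * h := by group
      rw [this, h2]; group
    · simp [hgm]
  have hNinv' : ∀ h ∈ H, ∀ m, h m ∈ N → m ∈ N := by
    intro h hh m hm
    have := hNinv h⁻¹ (inv_mem hh) _ hm
    simpa using this
  have hcN : ∀ m ∈ N, A.c m ∈ Set.range b := by
    rintro m ⟨h, hh, h1, hm⟩
    exact fixed_mem A H hH b hb hbD hinv m h hh h1 hm
  have hzD : ∀ z ∈ Set.range b, z ∈ A.D := by rintro _ ⟨m, rfl⟩; exact hbD m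
  let X := {m : Fin p // m ∉ N}
  let Y := {z : ℕ // z ∈ Set.range b ∧ z ∉ A.c '' N}
  have hact_inv : ∀ h ∈ H, ∀ z ∈ A.D, A.act h⁻¹ (A.act h z) = z := by
    intro h hh z hz
    rw [← A.mul h⁻¹ (hH (inv_mem hh)) h (hH hh) z hz, inv_mul_cancel, A.one z hz]
  let instX : MulAction H X := {
    smul := fun g n => ⟨(g : Equiv.Perm (Fin p)) n.1, fun h => n.2 (hNinv' g g.2 _ h)⟩
    one_smul := fun n => rfl
    mul_smul := fun g g' n => rfl }
  let instY : MulAction H Y := {
    smul := fun g z => ⟨A.act g z.1, by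
      obtain ⟨z, ⟨⟨n, rfl⟩, hz⟩⟩ := z
      refine ⟨hinv g g.2 n, ?_⟩
      rintro ⟨m, hm, hmz⟩
      apply hz
      refine ⟨(g : Equiv.Perm (Fin p))⁻¹ m, hNinv _ (inv_mem g.2) m hm, ?_⟩
      rw [← A.on_c _ (hH (inv_mem g.2)), hmz, hact_inv g g.2 _ (hbD n)]⟩
    one_smul := fun z => Subtype.ext (A.one z.1 (hzD _ z.2.1))
    mul_smul := fun g g' z => Subtype.ext (A.mul g (hH g.2) g' (hH g'.2) z.1 (hzD _ z.2.1)) }
  have hXfree : ∀ (g : H) (z : X), g • z = z → g = 1 := by
    intro g z hgz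
    by_contra hg1
    have hg1' : (g : Equiv.Perm (Fin p)) ≠ 1 := fun h => hg1 (Subtype.ext h)
    have h2 : (g : Equiv.Perm (Fin p)) z.1 = z.1 := congrArg Subtype.val hgz
    exact z.2 ⟨g, g.2, hg1', h2⟩
  have hYfree : ∀ (g : H) (z : Y), g • z = z → g = 1 := by
    intro g z hgz
    by_contra hg1
    have hg1' : (g : Equiv.Perm (Fin p)) ≠ 1 := fun h => hg1 (Subtype.ext h)
    have h2 : A.act g z.1 = z.1 := congrArg Subtype.val hgz
    obtain ⟨n, hn⟩ := A.free g (hH g.2) hg1' z.1 (hzD _ z.2.1) h2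
    rw [← hn, A.on_c _ (hH g.2)] at h2
    exact z.2.2 ⟨n, ⟨g, g.2, hg1', A.inj h2⟩, hn⟩
  have hfinb : (Set.range b).Finite := Set.finite_range b
  have hfinY : Finite Y := Set.Finite.to_subtype (hfinb.subset (fun z hz => hz.1))
  have hsub : A.c '' N ⊆ Set.range b := by rintro _ ⟨m, hm, rfl⟩; exact hcN m hm
  have hcard : Nat.card X = Nat.card Y := by
    have h1 : Nat.card X = (Nᶜ).ncard := rfl
    have h2 : Nat.card Y = (Set.range b \ (A.c '' N)).ncard := rfl
    have h3 : (Set.range b).ncard = p := by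
      rw [← Set.image_univ, Set.ncard_image_of_injective _ hb, Set.ncard_univ, Nat.card_fin]
    rw [h1, h2, Set.ncard_sdiff hsub, Set.ncard_image_of_injective _ A.inj, h3,
      Set.ncard_compl, Nat.card_fin]
  obtain ⟨e, he⟩ := free_equiv hXfree hYfree hcard
  let ψ : Fin p → ℕ := fun m => if h : m ∈ N then A.c m else (e ⟨m, h⟩).1
  have hψ1 : ∀ m, m ∈ N → ψ m = A.c m := fun m hm => by simp only [ψ, dif_pos hm]
  have hψ2 : ∀ m (hm : m ∉ N), ψ m = (e ⟨m, hm⟩).1 := fun m hm => by simp only [ψ, dif_neg hm]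
  have hψinj : Injective ψ := by
    intro m n hmn
    by_cases hm : m ∈ N <;> by_cases hn : n ∈ N
    · rw [hψ1 m hm, hψ1 n hn] at hmn; exact A.inj hmn
    · rw [hψ1 m hm, hψ2 n hn] at hmn
      exact absurd ⟨m, hm, hmn⟩ (e ⟨n, hn⟩).2.2
    · rw [hψ2 m hm, hψ1 n hn] at hmn
      exact absurd ⟨n, hn, hmn.symm⟩ (e ⟨m, hm⟩).2.2
    · rw [hψ2 m hm, hψ2 n hn] at hmn
      exact congrArg Subtype.val (e.injective (Subtype.ext hmn))
  have hψb : ∀ m, ∃ n, b n = ψ m := by
    intro m
    by_cases hm : m ∈ N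
    · rw [hψ1 m hm]; exact hcN m hm
    · rw [hψ2 m hm]; exact (e ⟨m, hm⟩).2.1
  choose r hr using hψb
  have hrinj : Injective r := by
    intro m n hmn
    apply hψinj
    rw [← hr, ← hr, hmn]
  refine ⟨Equiv.ofBijective r (Finite.injective_iff_bijective.mp hrinj), fun h hh m => ?_⟩
  simp only [Equiv.ofBijective_apply]
  rw [hr, hr]
  by_cases hm : m ∈ N
  · rw [hψ1 m hm, hψ1 _ (hNinv h hh m hm), A.on_c h (hH hh)]
  · have hm' : h m ∉ N := fun h2 => hm (hNinv' h hh m h2)
    rw [hψ2 m hm, hψ2 _ hm']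
    exact (congrArg Subtype.val (he ⟨h, hh⟩ ⟨m, hm⟩)).symm

lemma good (p : ℕ) [Fact p.Prime] : Good (Sp p) where
  prime := by
    intro c _ γ hγ hprime
    have h1 : γ ≠ 1 := by
      rintro rfl
      rw [orderOf_one] at hprime
      exact Nat.not_prime_one hprime
    have h2 : Nat.card {m : Fin p // γ m = m} ≤ 1 := by
      rw [Finite.card_le_one_iff_subsingleton]
      exact ⟨fun a b => Subtype.ext (fix_unique hγ h1 a.2 b.2)⟩
    exact lt_of_le_of_lt h2 hprime.one_lt
  fresh := by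
    intro b _ F
    obtain ⟨y, hy, hyF⟩ := exists_fresh (Fin p) F
    exact ⟨y, hy, trivial, hyF⟩
  twist := by
    intro A H hH b hb hbD hinv c _ _
    obtain ⟨ρ, hρ⟩ := twist A H hH b hb hbD hinv
    exact ⟨ρ, trivial, fun h hh => ⟨h, hH hh, hρ h hh⟩⟩
  ext1 := by
    classical
    intro A x hx F
    obtain ⟨y0, hy0, hy0F⟩ := exists_fresh (Theta p) (F ∪ A.D ∪ {x})
    let y := Function.update y0 1 x
    have hy1 : y 1 = x := Function.update_self _ _ _
    have hyne : ∀ γ, γ ≠ 1 → y γ = y0 γ := fun γ h => Function.update_of_ne h _ _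
    have hyinj : Injective y := by
      intro γ δ h
      by_cases h1 : γ = 1 <;> by_cases h2 : δ = 1
      · rw [h1, h2]
      · rw [h1, hy1, hyne δ h2] at h
        have := hy0F δ
        rw [← h] at this
        simp at this
      · rw [h2, hy1, hyne γ h1] at h
        have := hy0F γ
        rw [h] at this
        simp at this
      · rw [hyne γ h1, hyne δ h2] at h
        exact hy0 h
    obtain ⟨B, hB, hBy⟩ := extend A y hyinj (fun γ => by
      by_cases h1 : γ = 1
      · rw [h1, hy1]; exact hx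
      · rw [hyne γ h1]
        have := hy0F γ
        simp only [Finset.mem_union, not_or] at this
        exact this.1.2)
    rw [hy1] at hB hBy
    refine ⟨B, hB, ?_, ?_⟩
    · have := hBy 1
      rw [hy1] at this
      exact this
    · intro γ hγ h1
      have := hBy ⟨γ, hγ⟩
      simp only at this
      rw [this, hyne _ (fun h => h1 (congrArg Subtype.val h))]
      have h2 := hy0F ⟨γ, hγ⟩
      simp only [Finset.mem_union, not_or] at h2
      exact h2.1.1
  ext2 := by
    classical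
    intro A B H φ hH hφ _ R τ _ _ _ _ _ _ x _ _ _ F
    obtain ⟨y, hy, hyF⟩ := exists_fresh (Theta p) (F ∪ B.D)
    obtain ⟨B', hB', hBy⟩ := extend B y hy (fun γ h => hyF γ (Finset.mem_union_right _ h))
    refine ⟨B', y 1, hB', hBy 1, ?_, trivial⟩
    intro γ hγ
    have := hBy ⟨γ, hγ⟩
    simp only at this
    rw [this]
    exact fun h => hyF _ (Finset.mem_union_left _ h)

end Pool.Agent.R872.Sharp
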